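import Pool.Agent.helper95.T5.SpecN

/-! Row t5:NS4 (MP_16912e_nt), after N.lean of helper61 -/

set_option autoImplicit false

namespace Pool.Agent.T5

open Finset NumberField Pool.Agent.helper3.FT Pool.Agent.helper47.RA

theorem NS4_mem_pairs {N K y : ℕ} {p : ℕ × ℕ} (h : p ∈ pairs N K y) :
    1 ≤ p.1 ∧ p.1 ≤ N ∧ 1 ≤ p.2 ∧ p.2 ≤ K ∧ N < 2 * p.1 ∧ K < 2 * p.2 ∧ Nat.Coprime p.1 p.2 := by
  unfold pairs at h
  rw [Finset.mem_filter, Finset.mem_product, Finset.mem_Icc, Finset.mem_Icc] at h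
  obtain ⟨⟨⟨a, b⟩, c, d⟩, e, f, g, -⟩ := h
  exact ⟨a, b, c, d, e, f, g⟩

theorem NS4_size (N K M G H e q₁ q₂ : ℕ) (a : Fin 4 → ℕ) (hN : 1 ≤ N) (hK : 1 ≤ K) (hM : 1 ≤ M)
    (hG : 1 ≤ G) (he : 1 ≤ e) (hS : Sides N K M G H e q₁ q₂ a) (n k h r s : ℕ)
    (hn1 : 1 ≤ n) (hn : n ≤ N) (hk1 : 1 ≤ k) (hk : k ≤ K) (hn2 : N < 2 * n) (hk2 : K < 2 * k)
    (hh : h ≤ H) (hrs : r * s = e) (A A' B X : ℤ)
    (h1 : |(A : ℝ)| ≤ 4 * h * G / (n : ℝ) ^ 3 + (k : ℝ) ^ 3 * (r * s) / M)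
    (h2 : |(A' : ℝ)| ≤ 4 * q₁ * h * M / (n : ℝ) ^ 3 + 2 * q₂ * (n : ℝ) ^ 2 * k * (r * s) / M +
        q₁ * (k : ℝ) ^ 3 * (r * s) / G)
    (h3 : |(B : ℝ)| ≤ (2 * n * |(A' : ℝ)| / k + 5 * q₂ * (n : ℝ) ^ 3 * r * s / M) / s)
    (h4 : |(X : ℝ)| ≤ (n : ℝ) ^ 3 * r / G) :
    |A| ≤ a 0 ∧ |A'| ≤ a 1 ∧ |B| ≤ a 2 ∧ |X| ≤ a 3 := by
  have hr1 : 1 ≤ r := Nat.one_le_iff_ne_zero.2 (by
    rintro rfl
    rw [zero_mul] at hrs
    omega)
  have hs1 : 1 ≤ s := Nat.one_le_iff_ne_zero.2 (by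
    rintro rfl
    rw [mul_zero] at hrs
    omega)
  have hrsR : (r : ℝ) * s = e := by exact_mod_cast hrs
  have hNr : (1 : ℝ) ≤ N := by exact_mod_cast hN
  have hKr : (1 : ℝ) ≤ K := by exact_mod_cast hK
  have hMr : (1 : ℝ) ≤ M := by exact_mod_cast hM
  have hGr : (1 : ℝ) ≤ G := by exact_mod_cast hG
  have hnr : (1 : ℝ) ≤ n := by exact_mod_cast hn1
  have hkr : (1 : ℝ) ≤ k := by exact_mod_cast hk1
  have hsr : (1 : ℝ) ≤ s := by exact_mod_cast hs1
  have hrr : (1 : ℝ) ≤ r := by exact_mod_cast hr1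
  have hnN : (n : ℝ) ≤ N := by exact_mod_cast hn
  have hkK : (k : ℝ) ≤ K := by exact_mod_cast hk
  have hn2r : (N : ℝ) ≤ 2 * n := by exact_mod_cast hn2.le
  have hk2r : (K : ℝ) ≤ 2 * k := by exact_mod_cast hk2.le
  have hhr : (h : ℝ) ≤ H := by exact_mod_cast hh
  have her : (1 : ℝ) ≤ e := by exact_mod_cast he
  rw [hrsR] at h1 h2
  have hn3 : (N : ℝ) ^ 3 ≤ 8 * (n : ℝ) ^ 3 := by
    calc (N : ℝ) ^ 3 ≤ (2 * n) ^ 3 := pow_le_pow_left₀ (by linarith) hn2r 3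
      _ = 8 * (n : ℝ) ^ 3 := by ring
  have hinv : 4 / (n : ℝ) ^ 3 ≤ 32 / (N : ℝ) ^ 3 := by
    rw [div_le_div_iff₀ (by positivity) (by positivity)]
    linarith
  have hk3 : (k : ℝ) ^ 3 ≤ (K : ℝ) ^ 3 := pow_le_pow_left₀ (by linarith) hkK 3
  have hn3' : (n : ℝ) ^ 3 ≤ (N : ℝ) ^ 3 := pow_le_pow_left₀ (by linarith) hnN 3
  have hn2' : (n : ℝ) ^ 2 ≤ (N : ℝ) ^ 2 := pow_le_pow_left₀ (by linarith) hnN 2
  have hA : |(A : ℝ)| ≤ a 0 := by
    refine (h1.trans (add_le_add ?_ ?_)).trans hS.h0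
    · calc 4 * (h : ℝ) * G / (n : ℝ) ^ 3 = h * G * (4 / (n : ℝ) ^ 3) := by ring
        _ ≤ H * G * (32 / (N : ℝ) ^ 3) := by gcongr
        _ = _ := by ring
    · gcongr
  have hA' : |(A' : ℝ)| ≤ a 1 := by
    refine (h2.trans (add_le_add (add_le_add ?_ ?_) ?_)).trans hS.h1
    · calc 4 * (q₁ : ℝ) * h * M / (n : ℝ) ^ 3 = q₁ * h * M * (4 / (n : ℝ) ^ 3) := by ring
        _ ≤ q₁ * H * M * (32 / (N : ℝ) ^ 3) := by gcongr
        _ = _ := by ring
    · gcongr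
    · gcongr
  have hB : |(B : ℝ)| ≤ a 2 := by
    refine h3.trans (le_trans ?_ hS.h2)
    have h5 : 2 * (n : ℝ) * |(A' : ℝ)| / k + 5 * q₂ * (n : ℝ) ^ 3 * r * s / M ≤
        4 * (N : ℝ) * a 1 / K + 5 * q₂ * (N : ℝ) ^ 3 * e / M := by
      refine add_le_add ?_ ?_
      · have h6 : 1 / (k : ℝ) ≤ 2 / K := by
          rw [div_le_div_iff₀ (by positivity) (by positivity)]
          linarith
        calc 2 * (n : ℝ) * |(A' : ℝ)| / k = 2 * n * |(A' : ℝ)| * (1 / k) := by ring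
          _ ≤ 2 * N * a 1 * (2 / K) := by gcongr
          _ = _ := by ring
      · calc 5 * (q₂ : ℝ) * (n : ℝ) ^ 3 * r * s / M = 5 * q₂ * (n : ℝ) ^ 3 * (r * s) / M := by ring
          _ = 5 * q₂ * (n : ℝ) ^ 3 * e / M := by rw [hrsR]
          _ ≤ _ := by gcongr
    have h7 : 0 ≤ 2 * (n : ℝ) * |(A' : ℝ)| / k + 5 * q₂ * (n : ℝ) ^ 3 * r * s / M := by positivity
    calc (2 * (n : ℝ) * |(A' : ℝ)| / k + 5 * q₂ * (n : ℝ) ^ 3 * r * s / M) / s ≤
        (2 * (n : ℝ) * |(A' : ℝ)| / k + 5 * q₂ * (n : ℝ) ^ 3 * r * s / M) / 1 :=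
          div_le_div_of_nonneg_left h7 one_pos hsr
      _ ≤ _ := by rwa [div_one]
  have hX : |(X : ℝ)| ≤ a 3 := by
    refine h4.trans (le_trans ?_ hS.h3)
    have hre : (r : ℝ) ≤ e := by
      rw [← hrsR]
      exact le_mul_of_one_le_right (by linarith) hsr
    gcongr
  refine ⟨?_, ?_, ?_, ?_⟩
  · exact_mod_cast hA
  · exact_mod_cast hA'
  · exact_mod_cast hB
  · exact_mod_cast hX

theorem NS4 (hDM : DM_stmt) : NS4_stmt := by
  classical
  intro N K M G H e q₁ q₂ d P y c a W r s ρ hN hK hM hG he hq₁ hq₂ hd hP hS hW hR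
  have key : ∀ h ∈ (Ico P (2 * P)).filter (fun h => d * h ≤ H),
      ∀ p ∈ W.filter (fun p => Nat.Coprime h (5 * c * (p.1 * p.2))),
        nearG M G e ρ (d * h) p ≤
        1 + ((((dualG N K y P c q₁ q₂ s a).filter (fun t => (t.1, t.2.1) = (h, p))).card : ℕ) : ℝ) := by
    intro h hh p hp
    obtain ⟨hh1, hh2⟩ := Finset.mem_filter.mp hh
    obtain ⟨hp1, hp2⟩ := Finset.mem_filter.mp hp
    obtain ⟨a1, a2, a3, a4, a5, a6, a7⟩ := NS4_mem_pairs (hW hp1)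
    obtain ⟨hrs, hco, hres⟩ := hR p hp1
    have hr1 : 1 ≤ r p := Nat.one_le_iff_ne_zero.2 (by
      intro h0
      rw [h0, zero_mul] at hrs
      omega)
    have hs1 : 1 ≤ s p := Nat.one_le_iff_ne_zero.2 (by
      intro h0
      rw [h0, mul_zero] at hrs
      omega)
    have hpos : 1 ≤ h := by
      have := (Finset.mem_Ico.mp hh1).1
      omega
    have hdh : 1 ≤ d * h := Nat.one_le_iff_ne_zero.mpr (Nat.mul_ne_zero (by omega) (by omega))
    have hrsR : (r p : ℝ) * (s p : ℝ) = e := by exact_mod_cast hrs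
    obtain ⟨Fb, hFb⟩ : ∃ Fb, Fb = (dualG N K y P c q₁ q₂ s a).filter (fun t => (t.1, t.2.1) = (h, p)) :=
      ⟨_, rfl⟩
    rw [← hFb]
    unfold nearG
    obtain ⟨S, hSd⟩ : ∃ S, S = nearPts M G ((d * h : ℕ) * (ρ p).1 / ((p.1 : ℝ) ^ 3 * p.2 * e))
      ((d * h : ℕ) * (ρ p).2.1 / ((p.1 : ℝ) ^ 3 * p.2 * e))
      ((d * h : ℕ) * (ρ p).2.2 / ((p.1 : ℝ) ^ 3 * p.2 * e)) := ⟨_, rfl⟩
    rw [← hSd]
    have hsub : S ⊆ insert ((0 : ℤ), (0 : ℤ)) (Fb.image (fun t =>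
        (F2 t.2.2.2.1 (s p * t.2.2.2.2.1) (q₁ * s p * t.2.2.2.2.2) p.1 p.2 / (5 * q₁ * (d * h : ℕ)),
          F1 (q₂ * t.2.2.1) t.2.2.2.1 (s p * t.2.2.2.2.1) p.1 p.2 / (5 * q₂ * (d * h : ℕ))))) := by
      rintro ⟨u, v⟩ huv
      by_cases h0 : u = 0 ∧ v = 0
      · rw [h0.1, h0.2]
        exact Finset.mem_insert_self _ _
      apply Finset.mem_insert_of_mem
      rw [hSd] at huv
      unfold nearPts at huv
      rw [Finset.mem_filter, Finset.mem_product, Finset.mem_Icc, Finset.mem_Icc] at huv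
      obtain ⟨⟨⟨b1, b2⟩, b3, b4⟩, b5, b6⟩ := huv
      simp only at b1 b2 b3 b4 b5 b6
      rw [← hrsR] at b5 b6
      obtain ⟨A, A', B, X, c1, c2, c3, c4, c5, c6⟩ := hDM p.1 p.2 q₁ q₂ (r p) (s p) M G (d * h)
        a1 a3 hq₁ hq₂ hr1 hs1 hM hG hdh hco (ρ p).1 (ρ p).2.1 (ρ p).2.2 hres u v
        (abs_le.mpr ⟨by linarith, by linarith⟩) (abs_le.mpr ⟨by linarith, by linarith⟩) b5 b6
      obtain ⟨g1, g2, g3, g4⟩ := NS4_size N K M G H e q₁ q₂ a hN hK hM hG he hS p.1 p.2 (d * h)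
        (r p) (s p) a1 a2 a3 a4 a5 a6 hh2 hrs A A' B X c3 c4 c5 c6
      have hdz : ((d * h : ℕ) : ℤ) ≠ 0 := by exact_mod_cast (by omega : d * h ≠ 0)
      have hq1z : (q₁ : ℤ) ≠ 0 := by exact_mod_cast (by omega : q₁ ≠ 0)
      have hq2z : (q₂ : ℤ) ≠ 0 := by exact_mod_cast (by omega : q₂ ≠ 0)
      have hne1 : (5 * (q₁ : ℤ) * ((d * h : ℕ) : ℤ)) ≠ 0 :=
        mul_ne_zero (mul_ne_zero (by norm_num) hq1z) hdz
      have hne2 : (5 * (q₂ : ℤ) * ((d * h : ℕ) : ℤ)) ≠ 0 :=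
        mul_ne_zero (mul_ne_zero (by norm_num) hq2z) hdz
      rw [Finset.mem_image]
      refine ⟨(h, p, (A, A', B, X)), ?_, ?_⟩
      · rw [hFb, Finset.mem_filter]
        refine ⟨?_, rfl⟩
        unfold dualG
        rw [Finset.mem_filter]
        refine ⟨?_, hp2, ?_, ?_, ?_⟩
        · rw [Finset.mem_product, Finset.mem_product]
          refine ⟨hh1, hW hp1, ?_⟩
          unfold box4
          simp only [Finset.mem_product, Finset.mem_Icc]
          exact ⟨abs_le.mp g1, abs_le.mp g2, abs_le.mp g3, abs_le.mp g4⟩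
        · refine ⟨5 * q₂ * d * v, ?_⟩
          simp only
          rw [← c1]
          push_cast
          ring
        · refine ⟨5 * q₁ * d * u, ?_⟩
          simp only
          rw [← c2]
          push_cast
          ring
        · simp only
          rw [← c1, ← c2]
          by_contra hcon
          push Not at hcon
          apply h0
          constructor
          · exact (mul_eq_zero.mp hcon.2).resolve_left hne1
          · exact (mul_eq_zero.mp hcon.1).resolve_left hne2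
      · simp only
        rw [← c1, ← c2, Int.mul_ediv_cancel_left _ hne1, Int.mul_ediv_cancel_left _ hne2]
    have hcard : S.card ≤ 1 + Fb.card := by
      calc S.card ≤ _ := Finset.card_le_card hsub
        _ ≤ _ := Finset.card_insert_le _ _
        _ ≤ Fb.card + 1 := Nat.add_le_add_right Finset.card_image_le 1
        _ = _ := add_comm _ _
    exact_mod_cast hcard
  have hnat : ∑ h ∈ (Ico P (2 * P)).filter (fun h => d * h ≤ H),
      ∑ p ∈ W.filter (fun p => Nat.Coprime h (5 * c * (p.1 * p.2))),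
        (1 + ((dualG N K y P c q₁ q₂ s a).filter (fun t => (t.1, t.2.1) = (h, p))).card) ≤
      P * (pairs N K y).card + (dualG N K y P c q₁ q₂ s a).card := by
    calc _ ≤ ∑ h ∈ (Ico P (2 * P)).filter (fun h => d * h ≤ H),
        ∑ p ∈ pairs N K y,
          (1 + ((dualG N K y P c q₁ q₂ s a).filter (fun t => (t.1, t.2.1) = (h, p))).card) :=
          Finset.sum_le_sum (fun h hh => Finset.sum_le_sum_of_subset
            ((Finset.filter_subset _ _).trans hW))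
      _ ≤ ∑ h ∈ Ico P (2 * P),
        ∑ p ∈ pairs N K y,
          (1 + ((dualG N K y P c q₁ q₂ s a).filter (fun t => (t.1, t.2.1) = (h, p))).card) :=
          Finset.sum_le_sum_of_subset (Finset.filter_subset _ _)
      _ = ∑ x ∈ Ico P (2 * P) ×ˢ pairs N K y,
            (1 + ((dualG N K y P c q₁ q₂ s a).filter (fun t => (t.1, t.2.1) = x)).card) := by
          rw [Finset.sum_product]
      _ = P * (pairs N K y).card + (dualG N K y P c q₁ q₂ s a).card := by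
          rw [Finset.sum_add_distrib]
          congr 1
          · rw [Finset.sum_const, Finset.card_product, Nat.card_Ico]
            simp only [smul_eq_mul, mul_one]
            congr 1
            omega
          · symm
            apply Finset.card_eq_sum_card_fiberwise
            intro t ht
            have ht' : t ∈ dualG N K y P c q₁ q₂ s a := ht
            unfold dualG at ht'
            have := (Finset.mem_filter.mp ht').1
            rw [Finset.mem_product, Finset.mem_product] at this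
            exact Finset.mem_coe.mpr (Finset.mem_product.mpr ⟨this.1, this.2.1⟩)
  refine (Finset.sum_le_sum fun h hh => Finset.sum_le_sum fun p hp => key h hh p hp).trans ?_
  exact_mod_cast hnat

end Pool.Agent.T5
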