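import Pool.Agent.helper95.T5.SpecE

/-! Row t5:TWC (MP_16912e_nt): `q ∣ n k` and `q ∣ m` or `q ∣ g` -/

set_option autoImplicit false

namespace Pool.Agent.T5

open Finset NumberField Pool.Agent.helper3.FT Pool.Agent.helper47.RA

theorem TWC_pairs (N K q : ℕ) (hq : q.Prime) :
    ((pairs N K q).card : ℝ) ≤ 2 * ((N : ℝ) * K) / q := by
  have h1 : pairs N K q ⊆ ((Icc 1 N).filter (fun n => q ∣ n)) ×ˢ Icc 1 K ∪
      Icc 1 N ×ˢ ((Icc 1 K).filter (fun k => q ∣ k)) := by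
    intro p hp
    simp only [pairs, mem_filter, mem_product] at hp
    rw [mem_union, mem_product, mem_product, mem_filter, mem_filter]
    rcases (hq.dvd_mul.1 hp.2.2.2.2) with h | h
    · exact Or.inl ⟨⟨hp.1.1, h⟩, hp.1.2⟩
    · exact Or.inr ⟨hp.1.1, hp.1.2, h⟩
  have h2 : ∀ n : ℕ, ((Icc 1 n).filter (fun x => q ∣ x)).card = n / q := by
    intro n
    rw [← Nat.Ioc_filter_dvd_card_eq_div n q]
    congr 1
  have h3 : (pairs N K q).card ≤ (N / q) * K + N * (K / q) := by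
    refine (card_le_card h1).trans ((card_union_le _ _).trans (le_of_eq ?_))
    rw [card_product, card_product, h2, h2, Nat.card_Icc, Nat.card_Icc]
    simp
  have hq0 : (0 : ℝ) < q := by exact_mod_cast hq.pos
  have h4 : ((pairs N K q).card : ℝ) ≤ ((N / q : ℕ) : ℝ) * K + N * ((K / q : ℕ) : ℝ) := by
    exact_mod_cast h3
  have h5 : ((N / q : ℕ) : ℝ) ≤ (N : ℝ) / q := Nat.cast_div_le
  have h6 : ((K / q : ℕ) : ℝ) ≤ (K : ℝ) / q := Nat.cast_div_le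
  calc ((pairs N K q).card : ℝ) ≤ ((N / q : ℕ) : ℝ) * K + N * ((K / q : ℕ) : ℝ) := h4
    _ ≤ (N : ℝ) / q * K + N * ((K : ℝ) / q) := by gcongr
    _ = 2 * ((N : ℝ) * K) / q := by ring

theorem TWC_res (hRE1 : RE1_stmt) (hRE2 : RE2_stmt) :
    ∃ (ρ : ℕ × ℕ → ℤ × ℤ × ℤ) (c₀ : ℕ × ℕ → ℤ),
    ∀ p : ℕ × ℕ, Nat.Coprime p.1 p.2 →
      ResG p.1 p.2 1 1 1 1 (ρ p).1 (ρ p).2.1 (ρ p).2.2 ∧
      ∀ m g z : ℤ, IsT (p, (m, g, z)) → ((p.1 : ℤ) ^ 3 * p.2 ∣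
        z - ((ρ p).1 * m ^ 2 + (ρ p).2.1 * m * g + (ρ p).2.2 * g ^ 2 + c₀ p)) := by
  have h : ∀ p : ℕ × ℕ, ∃ x : (ℤ × ℤ × ℤ) × ℤ, Nat.Coprime p.1 p.2 →
      ResG p.1 p.2 1 1 1 1 x.1.1 x.1.2.1 x.1.2.2 ∧
      ∀ m g z : ℤ, IsT (p, (m, g, z)) → ((p.1 : ℤ) ^ 3 * p.2 ∣
        z - (x.1.1 * m ^ 2 + x.1.2.1 * m * g + x.1.2.2 * g ^ 2 + x.2)) := by
    intro p
    by_cases hp : Nat.Coprime p.1 p.2
    · have hc : IsCoprime ((p.1 : ℤ) * 1) ((p.2 : ℤ) * 1) := by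
        rw [mul_one, mul_one]
        exact Nat.isCoprime_iff_coprime.2 hp
      obtain ⟨α, β, γ, hR⟩ := hRE1 p.1 p.2 1 1 1 1 hc isCoprime_one_left isCoprime_one_left
      obtain ⟨c₀, hc₀⟩ := hRE2 p.1 p.2 1 1 1 1 α β γ hc isCoprime_one_left isCoprime_one_left
        hR 0 0
      refine ⟨((α, β, γ), c₀), fun _ => ⟨hR, fun m g z ht => ?_⟩⟩
      have h1 := (hc₀ m g z).2 ⟨?_, ?_⟩
      · rw [mul_one, mul_one] at h1
        exact h1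
      · have h2 := ht.c1
        simp only at h2
        have e : 1 * z * (p.2 : ℤ) ^ 4 + 1 * m * g * (p.2 : ℤ) ^ 2 - 1 * g ^ 2 * (p.1 : ℤ) ^ 2 +
            (p.1 : ℤ) ^ 3 * 0 = z * (p.2 : ℤ) ^ 4 + m * g * (p.2 : ℤ) ^ 2 - g ^ 2 * (p.1 : ℤ) ^ 2 := by
          ring
        rw [e, mul_one]
        exact h2
      · have h2 := ht.c2
        simp only at h2
        have e : 1 * z * (p.1 : ℤ) ^ 2 - 1 * m ^ 2 - (p.2 : ℤ) * 0 =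
            -(m ^ 2 - z * (p.1 : ℤ) ^ 2) := by ring
        rw [e, mul_one, dvd_neg]
        exact h2
    · exact ⟨((0, 0, 0), 0), fun h => absurd h hp⟩
  choose f hf using h
  exact ⟨fun p => (f p).1, fun p => (f p).2, hf⟩

theorem TWC_comb (ρ : ℕ × ℕ → ℤ × ℤ × ℤ) (c₀ : ℕ × ℕ → ℤ)
    (hρ : ∀ p : ℕ × ℕ, Nat.Coprime p.1 p.2 →
      ResG p.1 p.2 1 1 1 1 (ρ p).1 (ρ p).2.1 (ρ p).2.2 ∧
      ∀ m g z : ℤ, IsT (p, (m, g, z)) → ((p.1 : ℤ) ^ 3 * p.2 ∣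
        z - ((ρ p).1 * m ^ 2 + (ρ p).2.1 * m * g + (ρ p).2.2 * g ^ 2 + c₀ p)))
    (F : Finset Tpl) (N₁ K₁ q : ℕ) (r₁ r₂ m₀ g₀ z₀ : ℤ) (M G V : ℕ)
    (hF : ∀ t ∈ F, IsT t ∧ (N₁ < 2 * t.1.1 ∧ t.1.1 ≤ N₁ ∧ K₁ < 2 * t.1.2 ∧ t.1.2 ≤ K₁) ∧
      q ∣ t.1.1 * t.1.2 ∧ (m₀ ≤ t.2.1 ∧ t.2.1 < m₀ + M) ∧ (g₀ ≤ t.2.2.1 ∧ t.2.2.1 < g₀ + G) ∧
      (z₀ ≤ t.2.2.2 ∧ t.2.2.2 < z₀ + V) ∧ (q : ℤ) ∣ t.2.1 - r₁ ∧ (q : ℤ) ∣ t.2.2.1 - r₂) :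
    (F.card : ℝ) ≤ ∑ p ∈ pairs N₁ K₁ q,
      ((fibG m₀ g₀ z₀ M G V q (p.1 ^ 3 * p.2 * 1) r₁ r₂ (ρ p).1 (ρ p).2.1 (ρ p).2.2
        (c₀ p)).card : ℝ) := by
  have hmap : ∀ t ∈ F, t.1 ∈ pairs N₁ K₁ q := by
    intro t ht
    obtain ⟨hT, ⟨h1, h2, h3, h4⟩, h5, -⟩ := hF t ht
    simp only [pairs, mem_filter, mem_product, mem_Icc]
    exact ⟨⟨⟨hT.n1, h2⟩, ⟨hT.k1, h4⟩⟩, h1, h3, hT.co, h5⟩
  rw [card_eq_sum_card_fiberwise hmap]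
  push_cast
  refine sum_le_sum fun p hp => ?_
  have hle : (F.filter (fun t => t.1 = p)).card ≤ (fibG m₀ g₀ z₀ M G V q (p.1 ^ 3 * p.2 * 1) r₁ r₂
      (ρ p).1 (ρ p).2.1 (ρ p).2.2 (c₀ p)).card := by
    refine card_le_card_of_injOn (fun t => t.2) ?_ ?_
    · intro t ht
      rw [mem_coe, mem_filter] at ht
      obtain ⟨htF, htp⟩ := ht
      obtain ⟨hT, -, -, ⟨a1, a2⟩, ⟨b1, b2⟩, ⟨d1, d2⟩, e1, e2⟩ := hF t htF
      obtain ⟨t1, m, g, z⟩ := t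
      simp only at htp
      subst htp
      simp only at *
      rw [mem_coe]
      simp only [fibG, mem_filter, mem_product, mem_Ico]
      refine ⟨⟨⟨⟨a1, a2⟩, e1⟩, ⟨⟨b1, b2⟩, e2⟩, d1, d2⟩, ?_⟩
      have h1 := (hρ t1 hT.co).2 m g z hT
      push_cast
      rw [mul_one]
      exact h1
    · intro t ht t' ht' h
      rw [mem_coe, mem_filter] at ht ht'
      exact Prod.ext (ht.2.trans ht'.2.symm) h
  exact_mod_cast hle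

/-! ### sizes -/

theorem TWC_logs {N Y Y₂ : ℝ} (hN : 0 < N) (hY : 0 < Y) (hY₂ : 0 < Y₂) :
    Real.log (sN N Y Y₂) = Real.log Y + Real.log Y₂ / 2 - Real.log N / 2 ∧
    Real.log (sK N Y Y₂) = Real.log Y / 2 + Real.log Y₂ - Real.log N / 2 ∧
    Real.log (sM N Y Y₂) = 3 / 2 * Real.log Y + Real.log Y₂ / 2 - Real.log N / 2 ∧
    Real.log (sG N Y Y₂) = Real.log Y / 2 + 3 / 2 * Real.log Y₂ - Real.log N / 2 := by
  have h1 : √N ≠ 0 := by positivity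
  have h2 : √Y ≠ 0 := by positivity
  have h3 : √Y₂ ≠ 0 := by positivity
  refine ⟨?_, ?_, ?_, ?_⟩
  · rw [sN, Real.log_div (by positivity) h1, Real.log_mul hY.ne' h3, Real.log_sqrt hN.le,
      Real.log_sqrt hY₂.le]
  · rw [sK, Real.log_div (by positivity) h1, Real.log_mul h2 hY₂.ne', Real.log_sqrt hN.le,
      Real.log_sqrt hY.le]
  · rw [sM, Real.log_div (by positivity) h1, Real.log_mul (by positivity) h3,
      Real.log_mul hY.ne' h2, Real.log_sqrt hN.le, Real.log_sqrt hY.le, Real.log_sqrt hY₂.le]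
    ring
  · rw [sG, Real.log_div (by positivity) h1, Real.log_mul (by positivity) h3,
      Real.log_mul h2 hY₂.ne', Real.log_sqrt hN.le, Real.log_sqrt hY.le, Real.log_sqrt hY₂.le]
    ring

theorem TWC_pos {N Y Y₂ : ℝ} (hN : 0 < N) (hY : 0 < Y) (hY₂ : 0 < Y₂) :
    0 < sN N Y Y₂ ∧ 0 < sK N Y Y₂ ∧ 0 < sM N Y Y₂ ∧ 0 < sG N Y Y₂ := by
  unfold sN sK sM sG
  refine ⟨?_, ?_, ?_, ?_⟩ <;> positivity

theorem TWC_MG {N Y Y₂ : ℝ} (hN : 0 < N) (hY : 0 < Y) (hY₂ : 0 < Y₂) :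
    sM N Y Y₂ * sG N Y Y₂ = Y₂ * sN N Y Y₂ ^ 2 := by
  unfold sN sM sG
  have h1 : √N ^ 2 = N := Real.sq_sqrt hN.le
  have h2 : √Y ^ 2 = Y := Real.sq_sqrt hY.le
  have h3 : √Y₂ ^ 2 = Y₂ := Real.sq_sqrt hY₂.le
  have h0 : √N ≠ 0 := by positivity
  field_simp
  rw [h2]

theorem TWC_sizes {δ N Y : ℝ} (hδ : 0 < δ) (hδ1 : δ ≤ 1 / 10) (hN : 1 ≤ N)
    (hY1 : N ^ (0.39 : ℝ) ≤ Y) (hY2 : Y ≤ N ^ (1 / 2 - δ)) :
    1 ≤ Y ∧ 1 ≤ N ^ (1 / 2 + δ / 100) ∧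
    N ^ (0.1 : ℝ) ≤ sN N Y (N ^ (1 / 2 + δ / 100)) ∧ N ^ (0.1 : ℝ) ≤ sK N Y (N ^ (1 / 2 + δ / 100)) ∧
    sN N Y (N ^ (1 / 2 + δ / 100)) ≤ N ^ (0.6 : ℝ) ∧ sK N Y (N ^ (1 / 2 + δ / 100)) ≤ N ^ (0.6 : ℝ) ∧
    sM N Y (N ^ (1 / 2 + δ / 100)) ≤ N ^ (0.6 : ℝ) ∧ sG N Y (N ^ (1 / 2 + δ / 100)) ≤ N ^ (0.6 : ℝ) ∧
    N ^ (1 / 2 + δ / 100) / Y ≤ sM N Y (N ^ (1 / 2 + δ / 100)) ∧
    sM N Y (N ^ (1 / 2 + δ / 100)) ≤ sG N Y (N ^ (1 / 2 + δ / 100)) ∧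
    N ^ (0.2 : ℝ) * Y ≤ sN N Y (N ^ (1 / 2 + δ / 100)) ^ 3 * sK N Y (N ^ (1 / 2 + δ / 100)) ∧
    sN N Y (N ^ (1 / 2 + δ / 100)) ^ 3 * sK N Y (N ^ (1 / 2 + δ / 100)) ≤ N ^ (0.6 : ℝ) * Y ∧
    1 ≤ sM N Y (N ^ (1 / 2 + δ / 100)) := by
  have hN0 : 0 < N := by linarith
  have hY0 : 0 < Y := lt_of_lt_of_le (by positivity) hY1
  have hZ0 : 0 < N ^ (1 / 2 + δ / 100) := by positivity
  obtain ⟨l1, l2, l3, l4⟩ := TWC_logs hN0 hY0 hZ0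
  obtain ⟨p1, p2, p3, p4⟩ := TWC_pos hN0 hY0 hZ0
  have hn : 0 ≤ Real.log N := Real.log_nonneg hN
  have hz : Real.log (N ^ (1 / 2 + δ / 100)) = (1 / 2 + δ / 100) * Real.log N := Real.log_rpow hN0 _
  have hy1 : 0.39 * Real.log N ≤ Real.log Y := by
    rw [← Real.log_rpow hN0]
    exact Real.log_le_log (by positivity) hY1
  have hy2 : Real.log Y ≤ (1 / 2 - δ) * Real.log N := by
    rw [← Real.log_rpow hN0]
    exact Real.log_le_log hY0 hY2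
  rw [hz] at l1 l2 l3 l4
  obtain ⟨d, hd⟩ : ∃ d, d = δ * Real.log N := ⟨_, rfl⟩
  have hd0 : 0 ≤ d := by rw [hd]; positivity
  have hd1 : d ≤ Real.log N / 10 := by rw [hd]; nlinarith
  have ez : (1 / 2 + δ / 100) * Real.log N = Real.log N / 2 + d / 100 := by rw [hd]; ring
  have ey : (1 / 2 - δ) * Real.log N = Real.log N / 2 - d := by rw [hd]; ring
  rw [ez] at l1 l2 l3 l4 hz
  rw [ey] at hy2
  norm_num at hy1
  have key : ∀ {a b : ℝ}, 0 < a → 0 < b → Real.log a ≤ Real.log b → a ≤ b :=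
    fun ha hb h => (Real.log_le_log_iff ha hb).1 h
  have hr : ∀ c : ℝ, 0 < N ^ c := fun c => by positivity
  refine ⟨?_, ?_, ?_, ?_, ?_, ?_, ?_, ?_, ?_, ?_, ?_, ?_, ?_⟩
  · refine key one_pos hY0 ?_
    rw [Real.log_one]
    linarith
  · refine key one_pos hZ0 ?_
    rw [Real.log_one, hz]
    linarith
  · refine key (hr _) p1 ?_
    rw [Real.log_rpow hN0, l1]
    norm_num
    linarith
  · refine key (hr _) p2 ?_
    rw [Real.log_rpow hN0, l2]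
    norm_num
    linarith
  · refine key p1 (hr _) ?_
    rw [Real.log_rpow hN0, l1]
    norm_num
    linarith
  · refine key p2 (hr _) ?_
    rw [Real.log_rpow hN0, l2]
    norm_num
    linarith
  · refine key p3 (hr _) ?_
    rw [Real.log_rpow hN0, l3]
    norm_num
    linarith
  · refine key p4 (hr _) ?_
    rw [Real.log_rpow hN0, l4]
    norm_num
    linarith
  · refine key (by positivity) p3 ?_
    rw [Real.log_div hZ0.ne' hY0.ne', hz, l3]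
    linarith
  · refine key p3 p4 ?_
    rw [l3, l4]
    linarith
  · refine key (by positivity) (by positivity) ?_
    rw [Real.log_mul (hr _).ne' hY0.ne', Real.log_rpow hN0,
      Real.log_mul (by positivity) p2.ne', Real.log_pow, l1, l2]
    norm_num
    linarith
  · refine key (by positivity) (by positivity) ?_
    rw [Real.log_mul (hr _).ne' hY0.ne', Real.log_rpow hN0,
      Real.log_mul (by positivity) p2.ne', Real.log_pow, l1, l2]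
    norm_num
    linarith
  · refine key one_pos p3 ?_
    rw [Real.log_one, l3]
    linarith

open Classical in
theorem TWC_cls (F : Finset Tpl) (q : ℕ) (hq : 0 < q)
    (hdvd : ∀ t ∈ F, (q : ℤ) ∣ t.2.1 ∨ (q : ℤ) ∣ t.2.2.1) (B : ℝ)
    (h : ∀ (r₁ r₂ : ℤ) (F' : Finset Tpl), F' ⊆ F → (∀ t ∈ F', (q : ℤ) ∣ t.2.1 - r₁ ∧
      (q : ℤ) ∣ t.2.2.1 - r₂) → (F'.card : ℝ) ≤ B) : (F.card : ℝ) ≤ 2 * q * B := by
  have hcov : F ⊆ (range q).biUnion (fun j =>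
      F.filter (fun t => (q : ℤ) ∣ t.2.1 - 0 ∧ (q : ℤ) ∣ t.2.2.1 - (j : ℤ)) ∪
      F.filter (fun t => (q : ℤ) ∣ t.2.1 - (j : ℤ) ∧ (q : ℤ) ∣ t.2.2.1 - 0)) := by
    intro t ht
    have hqz : (0 : ℤ) < q := by exact_mod_cast hq
    have hcls : ∀ x : ℤ, ∃ j ∈ range q, (q : ℤ) ∣ x - (j : ℤ) := by
      intro x
      refine ⟨(x % q).toNat, ?_, ?_⟩
      · rw [mem_range]
        have h1 := Int.emod_lt_of_pos x hqz
        have h2 := Int.emod_nonneg x hqz.ne'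
        omega
      · rw [Int.toNat_of_nonneg (Int.emod_nonneg x hqz.ne')]
        exact Int.dvd_self_sub_emod
    rw [mem_biUnion]
    rcases hdvd t ht with h1 | h1
    · obtain ⟨j, hj, hj2⟩ := hcls t.2.2.1
      refine ⟨j, hj, ?_⟩
      rw [mem_union, mem_filter]
      exact Or.inl ⟨ht, by rwa [sub_zero], hj2⟩
    · obtain ⟨j, hj, hj2⟩ := hcls t.2.1
      refine ⟨j, hj, ?_⟩
      rw [mem_union, mem_filter, mem_filter]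
      exact Or.inr ⟨ht, hj2, by rwa [sub_zero]⟩
  have h1 : (F.card : ℝ) ≤ ∑ j ∈ range q,
      (((F.filter (fun t => (q : ℤ) ∣ t.2.1 - 0 ∧ (q : ℤ) ∣ t.2.2.1 - (j : ℤ))).card : ℝ) +
      ((F.filter (fun t => (q : ℤ) ∣ t.2.1 - (j : ℤ) ∧ (q : ℤ) ∣ t.2.2.1 - 0)).card : ℝ)) := by
    have h2 : F.card ≤ ∑ j ∈ range q,
      ((F.filter (fun t => (q : ℤ) ∣ t.2.1 - 0 ∧ (q : ℤ) ∣ t.2.2.1 - (j : ℤ))).card +
      (F.filter (fun t => (q : ℤ) ∣ t.2.1 - (j : ℤ) ∧ (q : ℤ) ∣ t.2.2.1 - 0)).card) :=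
      (card_le_card hcov).trans (card_biUnion_le.trans (sum_le_sum fun j _ => card_union_le _ _))
    exact_mod_cast h2
  refine h1.trans ?_
  calc ∑ j ∈ range q, _ ≤ ∑ j ∈ range q, (B + B) := by
        refine sum_le_sum fun j _ => add_le_add ?_ ?_
        · exact h 0 j _ (filter_subset _ _) fun t ht => (mem_filter.1 ht).2
        · exact h j 0 _ (filter_subset _ _) fun t ht => (mem_filter.1 ht).2
    _ = 2 * q * B := by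
        rw [sum_const, card_range, nsmul_eq_mul]
        ring

theorem TWC_relE {δ N Y Y₂ y : ℝ} (hN : 0 < N) (hY : 0 < Y) (hY₂ : 0 < Y₂) :
    0 ≤ relE δ N Y Y₂ y := by
  unfold relE
  positivity

/-- the numerical part of one block -/
theorem TWC_num {κ C₀ CL Cb Y Y₂ h X M G nb rel q n₁ k₁ W Te sn sm sg B₂ : ℝ} (hκ : 0 < κ)
    (hC₀ : 0 < C₀) (hCL : 0 < CL) (hCb : 0 < Cb) (hY : 0 < Y) (hY₂ : 0 < Y₂) (hh : 0 < h)
    (hq : 0 < q) (hn₁ : 0 < n₁) (hk₁ : 0 < k₁) (hX : X = n₁ ^ 3 * k₁) (hXh : X ≤ 128 * Y * h)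
    (hM : M ≤ C₀ * sm) (hG : G ≤ C₀ * sg) (hqM : q ≤ M) (hqG : q ≤ G) (hW : W ≤ 2 * (n₁ * k₁) / q)
    (hW0 : 0 ≤ W) (hsn : 0 < sn) (hsm : 0 < sm) (hsg : 0 < sg) (hsns : κ ^ 2 * sn ≤ n₁)
    (hid : sm * sg = Y₂ * sn ^ 2) (hrel : 0 ≤ rel) (hTe : 0 ≤ Te)
    (hnb : √(M * G) * nb ≤ rel * (X / Y) * (Y * Y₂) / q)
    (hB₂ : 256 * CL * Te * Cb ≤ B₂) :
    2 * q * (2 / h * ((M / q + 1) * (G / q + 1)) * W + CL * Te * (√(M * G) / h) * nb) ≤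
      (4096 * C₀ ^ 2 / κ ^ 4 / q ^ 2 + B₂ * rel / Cb) * (Y * Y₂) := by
  have hMq : M / q + 1 ≤ 2 * C₀ * sm / q := by
    have : 1 ≤ M / q := by rwa [one_le_div hq]
    calc M / q + 1 ≤ 2 * (M / q) := by linarith
      _ ≤ 2 * (C₀ * sm / q) := by gcongr
      _ = _ := by ring
  have hGq : G / q + 1 ≤ 2 * C₀ * sg / q := by
    have : 1 ≤ G / q := by rwa [one_le_div hq]
    calc G / q + 1 ≤ 2 * (G / q) := by linarith
      _ ≤ 2 * (C₀ * sg / q) := by gcongr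
      _ = _ := by ring
  have hM0 : 0 ≤ M / q + 1 := by
    have : 0 < M := lt_of_lt_of_le hq hqM
    positivity
  have hG0 : 0 ≤ G / q + 1 := by
    have : 0 < G := lt_of_lt_of_le hq hqG
    positivity
  have e1 : 2 * q * (2 / h * ((M / q + 1) * (G / q + 1)) * W) ≤
      4096 * C₀ ^ 2 / κ ^ 4 / q ^ 2 * (Y * Y₂) := by
    have s1 : 2 * q * (2 / h * ((M / q + 1) * (G / q + 1)) * W) ≤
        2 * q * (2 / h * ((2 * C₀ * sm / q) * (2 * C₀ * sg / q)) * (2 * (n₁ * k₁) / q)) := by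
      gcongr
    have s2 : 2 * q * (2 / h * ((2 * C₀ * sm / q) * (2 * C₀ * sg / q)) * (2 * (n₁ * k₁) / q)) =
        32 * C₀ ^ 2 * (Y₂ * sn ^ 2) / q ^ 2 * (n₁ * k₁ / h) := by
      rw [← hid]
      field_simp
      ring
    have s3 : n₁ * k₁ / h ≤ 128 * Y / (κ ^ 4 * sn ^ 2) := by
      rw [div_le_div_iff₀ hh (by positivity)]
      have t1 : κ ^ 4 * sn ^ 2 ≤ n₁ ^ 2 := by
        have := pow_le_pow_left₀ (by positivity) hsns 2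
        calc κ ^ 4 * sn ^ 2 = (κ ^ 2 * sn) ^ 2 := by ring
          _ ≤ n₁ ^ 2 := this
      calc n₁ * k₁ * (κ ^ 4 * sn ^ 2) ≤ n₁ * k₁ * n₁ ^ 2 := by gcongr
        _ = X := by rw [hX]; ring
        _ ≤ _ := hXh
    rw [s2] at s1
    refine s1.trans ?_
    calc 32 * C₀ ^ 2 * (Y₂ * sn ^ 2) / q ^ 2 * (n₁ * k₁ / h)
        ≤ 32 * C₀ ^ 2 * (Y₂ * sn ^ 2) / q ^ 2 * (128 * Y / (κ ^ 4 * sn ^ 2)) := by gcongr
      _ = 4096 * C₀ ^ 2 / κ ^ 4 / q ^ 2 * (Y * Y₂) := by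
        field_simp
        ring
  have e2 : 2 * q * (CL * Te * (√(M * G) / h) * nb) ≤ B₂ * rel / Cb * (Y * Y₂) := by
    have s1 : 2 * q * (CL * Te * (√(M * G) / h) * nb) = 2 * q * CL * Te / h * (√(M * G) * nb) := by
      ring
    rw [s1]
    calc 2 * q * CL * Te / h * (√(M * G) * nb) ≤
          2 * q * CL * Te / h * (rel * (X / Y) * (Y * Y₂) / q) := by gcongr
      _ = 2 * CL * Te * rel * (Y * Y₂) * (X / (Y * h)) := by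
          field_simp
      _ ≤ 2 * CL * Te * rel * (Y * Y₂) * 128 := by
          have s2 : X / (Y * h) ≤ 128 := by
            rw [div_le_iff₀ (by positivity)]
            linarith
          gcongr
      _ = 256 * CL * Te * Cb * (rel / Cb * (Y * Y₂)) := by
          field_simp
          ring
      _ ≤ B₂ * (rel / Cb * (Y * Y₂)) := by gcongr
      _ = _ := by ring
  have e3 := add_le_add e1 e2
  rw [← mul_add, ← add_mul] at e3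
  exact e3

theorem TWC (δ : ℝ) (hδ : 0 < δ) (hδ1 : δ ≤ 1 / 10) (hBLU : BLU_stmt) (hNUMC : NUMC_stmt)
    (hRE1 : RE1_stmt) (hRE2 : RE2_stmt) (hTR : TR_stmt) (hCZ : CZ_stmt) (hCBR : CBR_stmt) :
    TWC_stmt δ := by
  intro κ₀ hκ₀
  obtain ⟨κ, hκ, hκ1, hκκ⟩ : ∃ κ : ℝ, 0 < κ ∧ κ ≤ 1 ∧ κ ≤ κ₀ :=
    ⟨min κ₀ 1, lt_min hκ₀ one_pos, min_le_right _ _, min_le_left _ _⟩
  obtain ⟨Cb, hCb1, hCb⟩ := hCBR κ hκ hκ1
  obtain ⟨C₀, hC₀⟩ : ∃ C₀ : ℝ, C₀ = 12 / κ + 19 := ⟨_, rfl⟩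
  have h12 : 12 ≤ 12 / κ := by
    rw [le_div_iff₀ hκ]
    linarith
  have hC₀31 : 31 ≤ C₀ := by rw [hC₀]; linarith
  obtain ⟨N1, hN1⟩ := hNUMC δ (κ ^ 2) C₀ hδ hδ1 (by positivity) (by linarith)
  obtain ⟨CL, hCL1, hCL⟩ := hBLU (δ / 200) (by positivity)
  obtain ⟨ρ, c₀, hρ⟩ := TWC_res hRE1 hRE2
  have hpow : ∀ (x c : ℝ), 0 < c → ∀ᶠ N : ℝ in Filter.atTop, x ≤ N ^ c := fun x c hc =>
    (tendsto_rpow_atTop hc).eventually_ge_atTop x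
  have hev : ∀ᶠ N : ℝ in Filter.atTop, 1 ≤ N ∧ N1 ≤ N ∧ (κ ^ 2)⁻¹ ≤ N ^ (0.1 : ℝ) ∧
      C₀ + 41 ≤ N ^ (0.4 : ℝ) ∧ 64 / κ ^ 8 ≤ N ^ (0.2 : ℝ) ∧
      256 * CL * (2 : ℝ) ^ (δ / 200) * Cb ≤ N ^ (δ / 200) := by
    filter_upwards [Filter.eventually_ge_atTop (1 : ℝ), Filter.eventually_ge_atTop N1,
      hpow (κ ^ 2)⁻¹ 0.1 (by norm_num), hpow (C₀ + 41) 0.4 (by norm_num),
      hpow (64 / κ ^ 8) 0.2 (by norm_num),
      hpow (256 * CL * (2 : ℝ) ^ (δ / 200) * Cb) (δ / 200) (by positivity)] with N a1 a2 a3 a4 a5 a6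
    exact ⟨a1, a2, a3, a4, a5, a6⟩
  obtain ⟨N₀, hN₀⟩ := Filter.eventually_atTop.1 hev
  refine ⟨Cb * (4096 * C₀ ^ 2 / κ ^ 4), N₀, ?_, ?_⟩
  · have h1 : 1 ≤ 4096 * C₀ ^ 2 / κ ^ 4 := by
      rw [le_div_iff₀ (by positivity), one_mul]
      have : κ ^ 4 ≤ 1 := pow_le_one₀ hκ.le hκ1
      nlinarith
    nlinarith
  intro N Y hN hY1 hY2 q hq hqY F hF
  obtain ⟨a1, a2, a3, a4, a5, a6⟩ := hN₀ N hN
  obtain ⟨b1, b2, b3, b4, b5, b6, b7, b8, b9, b10, b11, b12, b13⟩ :=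
    TWC_sizes hδ hδ1 a1 hY1 hY2
  obtain ⟨Y₂, hY₂⟩ : ∃ Y₂ : ℝ, Y₂ = N ^ (1 / 2 + δ / 100) := ⟨_, rfl⟩
  rw [← hY₂] at b2 b3 b4 b5 b6 b7 b8 b9 b10 b11 b12 b13 hqY hF ⊢
  have hN0 : 0 < N := by linarith
  have hY0 : 0 < Y := by linarith
  have hY₂0 : 0 < Y₂ := by linarith
  obtain ⟨p1, p2, p3, p4⟩ := TWC_pos hN0 hY0 hY₂0
  have hq0 : (0 : ℝ) < q := by exact_mod_cast hq.pos
  have hF' : ∀ t ∈ F, Cen κ N Y Y₂ t := by
    intro t ht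
    have hc := (hF t ht).1
    have hl : 0 ≤ (lam t : ℝ) := le_trans (by positivity) hc.l1
    have hz : 0 ≤ (t.2.2.2 : ℝ) := by linarith [hc.z1]
    refine ⟨hc.tt, hc.z1, hc.z2, hc.d1, hc.d2, ?_, hc.l2, ?_, ?_⟩
    · exact le_trans (mul_le_mul_of_nonneg_right hκκ hY₂0.le) hc.l1
    · refine le_trans ?_ hc.s1
      gcongr
    · refine le_trans ?_ hc.s2
      gcongr
  have hrelE0 : 0 ≤ relE δ N Y Y₂ q := TWC_relE hN0 hY0 hY₂0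
  have hN04 : ∀ c : ℝ, 0 ≤ c → c ≤ C₀ + 41 → c * N ^ (0.6 : ℝ) ≤ N := by
    intro c _ hc
    calc c * N ^ (0.6 : ℝ) ≤ N ^ (0.4 : ℝ) * N ^ (0.6 : ℝ) := by
          gcongr
          linarith
      _ = N := by
          rw [← Real.rpow_add hN0]
          norm_num
  have hκ2 : 0 < κ ^ 2 := by positivity
  have hκ21 : κ ^ 2 ≤ 1 := pow_le_one₀ hκ.le hκ1
  have hs1 : 1 ≤ κ ^ 2 * sN N Y Y₂ := by
    have h1 : (κ ^ 2)⁻¹ ≤ sN N Y Y₂ := a3.trans b3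
    rw [inv_le_iff_one_le_mul₀ hκ2] at h1
    linarith
  have hs2 : 1 ≤ κ ^ 2 * sK N Y Y₂ := by
    have h1 : (κ ^ 2)⁻¹ ≤ sK N Y Y₂ := a3.trans b4
    rw [inv_le_iff_one_le_mul₀ hκ2] at h1
    linarith
  have hmain := hCb N Y Y₂ a1 b1 b2 hs1 hs2 F hF'
    ((4096 * C₀ ^ 2 / κ ^ 4 / (q : ℝ) ^ 2 + N ^ (δ / 100) * relE δ N Y Y₂ q / Cb) * (Y * Y₂))
    (by positivity) ?_
  · refine hmain.trans (le_of_eq ?_)
    field_simp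
  -- one block
  intro N₁ K₁ hN₁ hK₁ hBlk F₁ hF₁ hblk
  obtain ⟨T, hT⟩ : ∃ T : ℕ, T = ⌈N⌉₊ := ⟨_, rfl⟩
  have hleT : ∀ x : ℕ, (x : ℝ) ≤ N → x ≤ T := by
    intro x hx
    rw [hT]
    exact_mod_cast hx.trans (Nat.le_ceil N)
  have hT2 : (T : ℝ) ≤ 2 * N := by
    rw [hT]
    have := (Nat.ceil_lt_add_one hN0.le).le
    linarith
  obtain ⟨A, hA⟩ : ∃ A : ℕ, A = ⌈6 / κ * sM N Y Y₂⌉₊ := ⟨_, rfl⟩
  obtain ⟨Bg, hBg⟩ : ∃ Bg : ℕ, Bg = ⌈8 * sG N Y Y₂⌉₊ := ⟨_, rfl⟩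
  obtain ⟨V, hV⟩ : ∃ V : ℕ, V = ⌊Y⌋₊ := ⟨_, rfl⟩
  have hA1 : 6 / κ * sM N Y Y₂ ≤ A := by rw [hA]; exact Nat.le_ceil _
  have hA2 : (A : ℝ) ≤ 6 / κ * sM N Y Y₂ + 1 := by
    rw [hA]; exact (Nat.ceil_lt_add_one (by positivity)).le
  have hB1 : 8 * sG N Y Y₂ ≤ Bg := by rw [hBg]; exact Nat.le_ceil _
  have hB2 : (Bg : ℝ) ≤ 8 * sG N Y Y₂ + 1 := by
    rw [hBg]; exact (Nat.ceil_lt_add_one (by positivity)).le
  have hV1 : 1 ≤ V := by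
    rw [hV]
    exact Nat.le_floor (by exact_mod_cast b1)
  have hV2 : (V : ℝ) ≤ Y := by rw [hV]; exact Nat.floor_le hY0.le
  have hV3 : Y ≤ 2 * V := by
    have h1 : Y < V + 1 := by rw [hV]; exact Nat.lt_floor_add_one Y
    have h2 : (1 : ℝ) ≤ V := by exact_mod_cast hV1
    linarith
  obtain ⟨M, hM⟩ : ∃ M : ℕ, M = 2 * A + 1 := ⟨_, rfl⟩
  obtain ⟨G, hG⟩ : ∃ G : ℕ, G = 2 * Bg + 1 := ⟨_, rfl⟩
  have hMr : (M : ℝ) = 2 * A + 1 := by rw [hM]; push_cast; ring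
  have hGr : (G : ℝ) = 2 * Bg + 1 := by rw [hG]; push_cast; ring
  have hsG1 : 1 ≤ sG N Y Y₂ := b13.trans b10
  have h6κ : 6 ≤ 6 / κ := by
    rw [le_div_iff₀ hκ]
    linarith
  have hM1 : sM N Y Y₂ ≤ M := by
    rw [hMr]
    nlinarith
  have hM2 : (M : ℝ) ≤ C₀ * sM N Y Y₂ := by
    rw [hMr, hC₀]
    have e : (12 / κ + 19) * sM N Y Y₂ = 2 * (6 / κ * sM N Y Y₂) + 19 * sM N Y Y₂ := by ring
    rw [e]
    linarith
  have hG1 : sG N Y Y₂ ≤ G := by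
    rw [hGr]
    linarith
  have hG2 : (G : ℝ) ≤ C₀ * sG N Y Y₂ := by
    rw [hGr]
    nlinarith
  obtain ⟨H, hH⟩ : ∃ H : ℕ, H = (N₁ ^ 3 * K₁) / (64 * V) := ⟨_, rfl⟩
  have hV0 : 0 < 64 * V := by omega
  have hH1 : 64 * H * V ≤ N₁ ^ 3 * K₁ := by
    have := Nat.div_mul_le_self (N₁ ^ 3 * K₁) (64 * V)
    rw [← hH] at this
    linarith
  have hn1 : (1 : ℝ) ≤ N₁ := by exact_mod_cast hN₁
  have hk1 : (1 : ℝ) ≤ K₁ := by exact_mod_cast hK₁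
  have hXlow : 64 * Y ≤ (N₁ : ℝ) ^ 3 * K₁ := by
    have h1 : (κ ^ 2 * sN N Y Y₂) ^ 3 * (κ ^ 2 * sK N Y Y₂) ≤ (N₁ : ℝ) ^ 3 * K₁ := by
      have := hBlk.n1
      have := hBlk.k1
      gcongr
    have h2 : 64 * Y ≤ κ ^ 8 * (N ^ (0.2 : ℝ) * Y) := by
      rw [div_le_iff₀ (by positivity)] at a5
      nlinarith
    calc 64 * Y ≤ κ ^ 8 * (N ^ (0.2 : ℝ) * Y) := h2
      _ ≤ κ ^ 8 * (sN N Y Y₂ ^ 3 * sK N Y Y₂) := by gcongr
      _ = (κ ^ 2 * sN N Y Y₂) ^ 3 * (κ ^ 2 * sK N Y Y₂) := by ring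
      _ ≤ _ := h1
  have hH0 : 1 ≤ H := by
    rw [hH]
    refine Nat.div_pos ?_ hV0
    have h1 : (64 * V : ℝ) ≤ (N₁ : ℝ) ^ 3 * K₁ := le_trans (by linarith) hXlow
    exact_mod_cast h1
  have hh1 : (1 : ℝ) ≤ H := by exact_mod_cast hH0
  have hXh : (N₁ : ℝ) ^ 3 * K₁ ≤ 128 * Y * H := by
    have h1 : N₁ ^ 3 * K₁ < 64 * V * (H + 1) := by
      rw [hH]
      exact Nat.lt_mul_div_succ _ hV0
    have h2 : (N₁ : ℝ) ^ 3 * K₁ ≤ 64 * V * (H + 1) := by exact_mod_cast h1.le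
    have h3 : (64 : ℝ) * V * (H + 1) ≤ 64 * Y * (H + H) := by gcongr
    linarith
  have hHX : 32 * Y * H ≤ (N₁ : ℝ) ^ 3 * K₁ := by
    have h1 : (64 * H * V : ℝ) ≤ (N₁ : ℝ) ^ 3 * K₁ := by exact_mod_cast hH1
    nlinarith
  have hXup : (N₁ : ℝ) ^ 3 * K₁ ≤ 1296 * (N ^ (0.6 : ℝ) * Y) := by
    have h1 : (N₁ : ℝ) ^ 3 * K₁ ≤ (6 * sN N Y Y₂) ^ 3 * (6 * sK N Y Y₂) := by
      have := hBlk.n2
      have := hBlk.k2
      gcongr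
    have h2 : (6 * sN N Y Y₂) ^ 3 * (6 * sK N Y Y₂) = 1296 * (sN N Y Y₂ ^ 3 * sK N Y Y₂) := by ring
    rw [h2] at h1
    linarith
  have hHN : (H : ℝ) ≤ N := by
    refine le_trans ?_ (hN04 41 (by norm_num) (by linarith))
    have h1 : 32 * Y * (H : ℝ) ≤ 1296 * (N ^ (0.6 : ℝ) * Y) := hHX.trans hXup
    have h2 : Y * (H : ℝ) ≤ Y * (41 * N ^ (0.6 : ℝ)) := by nlinarith [mul_pos (show (0 : ℝ) < N ^ (0.6 : ℝ) by positivity) hY0]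
    exact le_of_mul_le_mul_left h2 hY0
  have hqN : (q : ℝ) ≤ N := by
    have h1 := hN04 1 (by norm_num) (by linarith)
    linarith
  have hRng : Rng δ N Y Y₂ := by
    refine ⟨?_, hY2, ?_, by rw [hY₂]⟩
    · exact le_trans (Real.rpow_le_rpow_of_exponent_le a1 (by norm_num)) hY1
    · rw [hY₂]
      exact Real.rpow_le_rpow_of_exponent_le a1 (by linarith)
  have hBlk' : Blk (κ ^ 2) C₀ N Y Y₂ N₁ K₁ := by
    refine ⟨hBlk.n1, hBlk.n2.trans ?_, hBlk.k1, hBlk.k2.trans ?_⟩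
    · gcongr
      linarith
    · gcongr
      linarith
  have hN4000 : 1 ≤ N ^ (δ / 4000) := Real.one_le_rpow a1 (by positivity)
  obtain ⟨a, hSides, haN, hnB⟩ := hN1 N Y Y₂ a2 hRng N₁ K₁ M G H 1 q hBlk'
    (le_trans (mul_le_of_le_one_left p3.le hκ21) hM1) hM2
    (le_trans (mul_le_of_le_one_left p4.le hκ21) hG1) hG2 le_rfl (by exact_mod_cast hN4000)
    hq.one_lt.le hqN hH0 (by
      have h1 : (H : ℝ) ≤ (N₁ : ℝ) ^ 3 * K₁ / Y := by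
        rw [le_div_iff₀ hY0]
        nlinarith
      calc (H : ℝ) ≤ 1 * ((N₁ : ℝ) ^ 3 * K₁ / Y) := by rw [one_mul]; exact h1
        _ ≤ _ := by gcongr)
  -- the fibres
  have hclass : ∀ (r₁ r₂ : ℤ) (F' : Finset Tpl), F' ⊆ F₁ → (∀ t ∈ F', (q : ℤ) ∣ t.2.1 - r₁ ∧
      (q : ℤ) ∣ t.2.2.1 - r₂) → (F'.card : ℝ) ≤
      2 / H * (((M : ℝ) / q + 1) * ((G : ℝ) / q + 1)) * ((pairs N₁ K₁ q).card : ℝ) +
        CL * (T : ℝ) ^ (δ / 200) * (√((M : ℝ) * G) / H) * nB N₁ K₁ H q 1 1 1 a := by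
    intro r₁ r₂ F' hF'1 hcl
    have hb := hCL T N₁ K₁ M G V q 1 1 1 q H a (pairs N₁ K₁ q) (fun _ => 1) (fun _ => 1) ρ
      (fun _ => -(A : ℤ)) (fun _ => -(Bg : ℤ)) (fun _ => 1) (fun _ => r₁) (fun _ => r₂) c₀
      hN₁ (hleT _ (by
        have := hBlk.n2
        have h1 := hN04 6 (by norm_num) (by linarith)
        nlinarith)) hK₁ (hleT _ (by
        have := hBlk.k2
        have h1 := hN04 6 (by norm_num) (by linarith)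
        nlinarith)) (by omega) (hleT _ (by
        have h1 := hN04 C₀ (by linarith) (by linarith)
        nlinarith)) (by omega) (hleT _ (by
        have h1 := hN04 C₀ (by linarith) (by linarith)
        nlinarith)) hH0 (hleT _ hHN) hV1 hq.one_lt.le le_rfl le_rfl le_rfl
      (hleT _ (by push_cast; linarith)) hq.one_lt.le (hleT _ hqN) (fun i => hleT _ (haN i))
      hq.squarefree hSides (Subset.refl _) (by
        intro p hp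
        simp only [pairs, mem_filter] at hp
        exact ⟨rfl, by simpa using hp.2.2.2.1, (hρ p hp.2.2.2.1).1⟩) (by rw [mul_one]; exact hH1)
    refine le_trans ?_ hb
    refine TWC_comb ρ c₀ hρ F' N₁ K₁ q r₁ r₂ (-(A : ℤ)) (-(Bg : ℤ)) 1 M G V ?_
    intro t ht
    have htF₁ := hF'1 ht
    have htF := hF₁ htF₁
    obtain ⟨-, hd, -⟩ := hF t htF
    have hcen := hF' t htF
    obtain ⟨-, -, -, -, cm, cg, cz, -, -⟩ := hCZ κ N Y Y₂ t hκ hκ1 a1 b1 b2 hcen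
    have cm' : |t.2.1| ≤ (A : ℤ) := by
      have h1 : |(t.2.1 : ℝ)| ≤ A := cm.trans hA1
      exact_mod_cast h1
    have cg' : |t.2.2.1| ≤ (Bg : ℤ) := by
      have h1 : |(t.2.2.1 : ℝ)| ≤ Bg := cg.trans hB1
      exact_mod_cast h1
    rw [abs_le] at cm' cg'
    have hzV : t.2.2.2 ≤ (V : ℤ) := by
      have h1 : (t.2.2.2.toNat : ℤ) = t.2.2.2 := Int.toNat_of_nonneg cz.le
      rw [← h1, hV]
      have h2 : t.2.2.2.toNat ≤ ⌊Y⌋₊ := by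
        refine Nat.le_floor ?_
        have h3 : ((t.2.2.2.toNat : ℕ) : ℝ) = (t.2.2.2 : ℝ) := by exact_mod_cast congrArg (Int.cast : ℤ → ℝ) h1
        rw [h3]
        exact hcen.z2
      exact_mod_cast h2
    refine ⟨hcen.tt, hblk t htF₁, hd, ⟨cm'.1, ?_⟩, ⟨cg'.1, ?_⟩, ⟨by omega, by omega⟩, hcl t ht⟩
    · rw [hM]
      push_cast
      omega
    · rw [hG]
      push_cast
      omega
  have hcount := TWC_cls F₁ q hq.pos (fun t ht => by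
    have h1 := (hF t (hF₁ ht)).2.2
    exact (Nat.prime_iff_prime_int.1 hq).dvd_mul.1 h1) _ hclass
  refine hcount.trans ?_
  have hqM : (q : ℝ) ≤ M := hqY.trans (b9.trans hM1)
  have hqG : (q : ℝ) ≤ G := hqY.trans (b9.trans (b10.trans hG1))
  refine TWC_num (X := (N₁ : ℝ) ^ 3 * K₁) (n₁ := N₁) (k₁ := K₁) (sn := sN N Y Y₂)
    (sm := sM N Y Y₂) (sg := sG N Y Y₂) hκ (by linarith) (by linarith) (by linarith) hY0 hY₂0
    (by linarith) hq0 (by linarith) (by linarith) rfl hXh hM2 hG2 hqM hqG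
    (TWC_pairs N₁ K₁ q hq) (by positivity) p1 p3 p4 hBlk.n1 (TWC_MG hN0 hY0 hY₂0) hrelE0
    (by positivity) hnB ?_
  have e1 : (T : ℝ) ^ (δ / 200) ≤ (2 : ℝ) ^ (δ / 200) * N ^ (δ / 200) := by
    rw [← Real.mul_rpow (by norm_num) hN0.le]
    exact Real.rpow_le_rpow (by positivity) hT2 (by positivity)
  have e2 : N ^ (δ / 100) = N ^ (δ / 200) * N ^ (δ / 200) := by
    rw [← Real.rpow_add hN0]
    congr 1
    ring
  rw [e2]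
  calc 256 * CL * (T : ℝ) ^ (δ / 200) * Cb ≤
        256 * CL * ((2 : ℝ) ^ (δ / 200) * N ^ (δ / 200)) * Cb := by gcongr
    _ = (256 * CL * (2 : ℝ) ^ (δ / 200) * Cb) * N ^ (δ / 200) := by ring
    _ ≤ N ^ (δ / 200) * N ^ (δ / 200) := by gcongr

end Pool.Agent.T5
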