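import Pool.Agent.helper26.T5.SpecA

/-! Row t5:LA4 (MP_16912e_nt): lattice points in a rotated rectangle -/

set_option autoImplicit false

namespace Pool.Agent.helper26.T5

open MeasureTheory

theorem LA4_vol (a b : ℝ) (ha : 0 ≤ a) (u : ℂ) (hu : ‖u‖ = 1) :
    MeasurableSet {z : ℂ | |((starRingEnd ℂ) u * z).re| ≤ a ∧ |((starRingEnd ℂ) u * z).im| ≤ b} ∧
    volume {z : ℂ | |((starRingEnd ℂ) u * z).re| ≤ a ∧ |((starRingEnd ℂ) u * z).im| ≤ b} =
      ENNReal.ofReal (4 * a * b) := by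
  have hw : ‖(starRingEnd ℂ) u‖ = 1 := by rw [RCLike.norm_conj, hu]
  obtain ⟨c, hc⟩ : ∃ c : Circle, (c : ℂ) = (starRingEnd ℂ) u :=
    ⟨⟨(starRingEnd ℂ) u, mem_sphere_zero_iff_norm.2 hw⟩, rfl⟩
  have hmp := (rotation c).measurePreserving
  obtain ⟨Q, hQ⟩ : ∃ Q : Set ℂ, Q = Complex.measurableEquivRealProd ⁻¹'
      (Set.Icc (-a) a ×ˢ Set.Icc (-b) b) := ⟨_, rfl⟩
  have hQm : MeasurableSet Q := by
    rw [hQ]
    exact Complex.measurableEquivRealProd.measurable (measurableSet_Icc.prod measurableSet_Icc)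
  have hT : {z : ℂ | |((starRingEnd ℂ) u * z).re| ≤ a ∧ |((starRingEnd ℂ) u * z).im| ≤ b} =
      (rotation c) ⁻¹' Q := by
    ext z
    rw [hQ]
    simp only [Set.mem_ofPred_eq, Set.mem_preimage, Set.mem_prod, Set.mem_Icc,
      Complex.measurableEquivRealProd_apply, rotation_apply, hc, abs_le]
  rw [hT]
  refine ⟨(rotation c).continuous.measurable hQm, ?_⟩
  rw [hmp.measure_preimage hQm.nullMeasurableSet, hQ,
    Complex.volume_preserving_equiv_real_prod.measure_preimage_equiv, Measure.volume_eq_prod,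
    Measure.prod_prod, Real.volume_Icc, Real.volume_Icc, ← ENNReal.ofReal_mul (by linarith)]
  congr 1
  ring

theorem la4 (h1 : LA1) : LA4 := by
  intro v e₁ e₂ u d R h hcov hd hR hh hu
  have hd0 : 0 ≤ d := le_trans (by positivity) hd
  obtain ⟨hTm, hTv⟩ := LA4_vol (R + d) (h + d) (by linarith) u hu
  have hw : ‖(starRingEnd ℂ) u‖ = 1 := by rw [RCLike.norm_conj, hu]
  have h2 := h1 v e₁ e₂ d {z : ℂ | ‖z‖ ≤ R ∧ |((starRingEnd ℂ) u * z).im| ≤ h}
    {z : ℂ | |((starRingEnd ℂ) u * z).re| ≤ R + d ∧ |((starRingEnd ℂ) u * z).im| ≤ h + d}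
    hcov hd hTm (by rw [hTv]; exact ENNReal.ofReal_ne_top) (by
      rintro z ⟨hz1, hz2⟩ t ht
      have h3 : ‖(starRingEnd ℂ) u * z‖ ≤ R := by rwa [norm_mul, hw, one_mul]
      have h4 : ‖(starRingEnd ℂ) u * t‖ ≤ d := by rwa [norm_mul, hw, one_mul]
      have h5 := (Complex.abs_re_le_norm ((starRingEnd ℂ) u * z)).trans h3
      have h6 := (Complex.abs_re_le_norm ((starRingEnd ℂ) u * t)).trans h4
      have h7 := (Complex.abs_im_le_norm ((starRingEnd ℂ) u * t)).trans h4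
      refine ⟨?_, ?_⟩
      · rw [mul_add, Complex.add_re]
        exact (abs_add_le _ _).trans (add_le_add h5 h6)
      · rw [mul_add, Complex.add_im]
        exact (abs_add_le _ _).trans (add_le_add hz2 h7))
  rw [hTv, ENNReal.toReal_ofReal (by positivity)] at h2
  exact h2

end Pool.Agent.helper26.T5
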