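import Pool.Agent.helper26.T5.SpecA

/-! Row t5:LCRT (MP_16912e_nt): products of local functions -/

set_option autoImplicit false

namespace Pool.Agent.helper26.T5

theorem LCRT_per (V : ℕ) (f : ℤ → ℝ) (hf : ∀ x, f (x + V) = f x) (k : ℕ) (x : ℤ) :
    f (x + V * k) = f x := by
  induction k with
  | zero => simp
  | succ k ih =>
    have h : x + (V : ℤ) * ((k + 1 : ℕ) : ℤ) = x + V * k + V := by
      push_cast
      ring
    rw [h, hf, ih]

theorem LCRT_mod (V : ℕ) (f : ℤ → ℝ) (hf : ∀ x, f (x + V) = f x) (x : ℕ) :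
    f (x : ℤ) = f ((x % V : ℕ) : ℤ) := by
  have h := LCRT_per V f hf (x / V) ((x % V : ℕ) : ℤ)
  rw [← h]
  congr 1
  exact_mod_cast (Nat.mod_add_div x V).symm

theorem LCRT_one (V W : ℕ) (hV : 0 < V) (hW : 0 < W) (hco : Nat.Coprime V W) (f g : ℤ → ℝ)
    (hf : ∀ x, f (x + V) = f x) (hg : ∀ x, g (x + W) = g x) :
    ∑ x ∈ Finset.range (V * W), f x * g x =
      (∑ x ∈ Finset.range V, f x) * ∑ x ∈ Finset.range W, g x := by
  rw [Finset.sum_mul_sum, ← Finset.sum_product']
  refine Finset.sum_nbij (fun x => (x % V, x % W)) ?_ ?_ ?_ ?_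
  · intro x _
    rw [Finset.mem_product, Finset.mem_range, Finset.mem_range]
    exact ⟨Nat.mod_lt _ hV, Nat.mod_lt _ hW⟩
  · intro x hx y hy hxy
    rw [Finset.mem_coe, Finset.mem_range] at hx hy
    simp only [Prod.mk.injEq] at hxy
    have h : x ≡ y [MOD V * W] := (Nat.modEq_and_modEq_iff_modEq_mul hco).1 ⟨hxy.1, hxy.2⟩
    have h2 : x % (V * W) = y % (V * W) := h
    rwa [Nat.mod_eq_of_lt hx, Nat.mod_eq_of_lt hy] at h2
  · rintro ⟨a, b⟩ hab
    rw [Finset.mem_coe, Finset.mem_product, Finset.mem_range, Finset.mem_range] at hab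
    obtain ⟨k, hk1, hk2⟩ := Nat.chineseRemainder hco a b
    refine ⟨k % (V * W), ?_, ?_⟩
    · rw [Finset.mem_coe, Finset.mem_range]
      exact Nat.mod_lt _ (Nat.mul_pos hV hW)
    · have e1 : k % (V * W) % V = a := by
        rw [Nat.mod_mul_right_mod]
        have h3 : k % V = a % V := hk1
        rw [h3, Nat.mod_eq_of_lt hab.1]
      have e2 : k % (V * W) % W = b := by
        rw [Nat.mod_mul_left_mod]
        have h3 : k % W = b % W := hk2
        rw [h3, Nat.mod_eq_of_lt hab.2]
      exact Prod.ext e1 e2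
  · intro x _
    rw [LCRT_mod V f hf x, LCRT_mod W g hg x]

theorem LCRT_mul (V W : ℕ) (hV : 0 < V) (hW : 0 < W) (hco : Nat.Coprime V W) (F G : ℤ → ℤ → ℝ)
    (hF : Per V F) (hG : Per W G) : Per (V * W) (fun x y => F x y * G x y) := by
  refine ⟨fun x y => mul_nonneg (hF.nn x y) (hG.nn x y), ?_, ?_, ?_⟩
  · intro x y
    have h1 := LCRT_per V (fun x => F x y) (fun x => hF.px x y) W x
    have h2 := LCRT_per W (fun x => G x y) (fun x => hG.px x y) V x
    push_cast
    rw [h1, mul_comm (V : ℤ) W, h2]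
  · intro x y
    have h1 := LCRT_per V (fun y => F x y) (fun y => hF.py x y) W y
    have h2 := LCRT_per W (fun y => G x y) (fun y => hG.py x y) V y
    push_cast
    rw [h1, mul_comm (V : ℤ) W, h2]
  · have h1 : ∀ x ∈ Finset.range (V * W), ∑ y ∈ Finset.range (V * W), F x y * G x y =
        (∑ y ∈ Finset.range V, F x y) * ∑ y ∈ Finset.range W, G x y := fun x _ =>
      LCRT_one V W hV hW hco (fun y => F x y) (fun y => G x y) (fun y => hF.py x y)
        (fun y => hG.py x y)
    rw [Finset.sum_congr rfl h1, LCRT_one V W hV hW hco (fun x => ∑ y ∈ Finset.range V, F x y)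
      (fun x => ∑ y ∈ Finset.range W, G x y)
      (fun x => Finset.sum_congr rfl fun y _ => hF.px x y)
      (fun x => Finset.sum_congr rfl fun y _ => hG.px x y), hF.mean, hG.mean]
    push_cast
    ring

theorem lcrt : LCRT := by
  classical
  intro s F hs hF
  induction s using Finset.induction_on with
  | empty =>
    refine ⟨fun x y => ?_, fun x y => ?_, fun x y => ?_, ?_⟩
    · simp
    · simp
    · simp
    · simp
  | insert p s hp ih =>
    have hpp : p.Prime := hs p (Finset.mem_insert_self p s)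
    have h1 := ih (fun q hq => hs q (Finset.mem_insert_of_mem hq))
      (fun q hq => hF q (Finset.mem_insert_of_mem hq))
    have hco : Nat.Coprime p (∏ q ∈ s, q) := by
      refine Nat.Coprime.prod_right fun q hq => ?_
      refine (Nat.coprime_primes hpp (hs q (Finset.mem_insert_of_mem hq))).2 ?_
      rintro rfl
      exact hp hq
    have hpos : 0 < ∏ q ∈ s, q :=
      Finset.prod_pos fun q hq => (hs q (Finset.mem_insert_of_mem hq)).pos
    have h2 := LCRT_mul p (∏ q ∈ s, q) hpp.pos hpos hco (F p) (fun x y => ∏ q ∈ s, F q x y)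
      (hF p (Finset.mem_insert_self p s)) h1
    simp only [Finset.prod_insert hp]
    exact h2

end Pool.Agent.helper26.T5
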