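import Pool.Agent.helper26.T5.SpecB

/-! Row t5:LXW (MP_16912e_nt): ideals of prime norm -/

set_option autoImplicit false

namespace Pool.Agent.helper26.T5

open NumberField Pool.Agent.helper3.FT Pool.Agent.helper47.RA Pool.Agent.T5

theorem lxw : LXW := by
  intro K _ _ Q P p hp hP
  have := Fact.mk hp
  have h1 : (1 : 𝓞 K) ∉ P := by
    intro h
    rw [(Ideal.eq_top_iff_one P).2 h, Ideal.absNorm_top] at hP
    exact hp.one_lt.ne hP
  have hcard : Nat.card (𝓞 K ⧸ P) = p := by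
    rw [← hP, Ideal.absNorm_apply, Submodule.cardQuot_apply]
  have hne : (1 : 𝓞 K ⧸ P) ≠ 0 := by
    intro h
    exact h1 (Ideal.Quotient.eq_zero_iff_mem.1 (by rw [map_one]; exact h))
  obtain ⟨x, hx⟩ : ∃ x : ℤ, (x : 𝓞 K) + Q.ω ∈ P := by
    obtain ⟨x, hx⟩ := AddSubgroup.mem_zmultiples_iff.1
      (mem_zmultiples_of_prime_card hcard hne (g' := Ideal.Quotient.mk P (-Q.ω)))
    refine ⟨x, ?_⟩
    rw [← Ideal.Quotient.eq_zero_iff_mem, map_add, map_intCast]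
    rw [zsmul_one, map_neg] at hx
    rw [hx, neg_add_cancel]
  have h2 : ∀ c : ℤ, (c : 𝓞 K) ∈ P → (p : ℤ) ∣ c := by
    intro c hc
    by_contra hpc
    have hcop : IsCoprime (p : ℤ) c := by
      rw [Int.isCoprime_iff_gcd_eq_one]
      exact (Int.isCoprime_iff_gcd_eq_one.1
        ((Nat.prime_iff_prime_int.1 hp).coprime_iff_not_dvd.2 hpc))
    obtain ⟨u, v, huv⟩ := hcop
    apply h1
    have h3 : (1 : 𝓞 K) = u * (p : 𝓞 K) + v * (c : 𝓞 K) := by
      have := congrArg (Int.cast : ℤ → 𝓞 K) huv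
      push_cast at this
      exact this.symm
    rw [h3]
    refine P.add_mem (P.mul_mem_left _ ?_) (P.mul_mem_left _ hc)
    have h4 := Ideal.absNorm_mem P
    rwa [hP] at h4
  have hx1 : ((x : 𝓞 K) + ((1 : ℤ) : 𝓞 K) * Q.ω) ∈ P := by
    rw [Int.cast_one, one_mul]
    exact hx
  have h3 : (p : ℤ) ∣ x ^ 2 + Q.t * x * 1 - Q.k * 1 ^ 2 := by
    apply h2
    rw [← Q.norm_form]
    exact P.mul_mem_right _ hx1
  have ht : Q.t ^ 2 = Q.t := Q.t_sq
  have hk := Q.hk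
  refine ⟨⟨x, hx⟩, h2, ?_, 2 * x + Q.t, ?_⟩
  · intro hbar
    have h4 : Q.cj ((x : 𝓞 K) + ((1 : ℤ) : 𝓞 K) * Q.ω) ∈ P := by
      have := Ideal.mem_map_of_mem Q.cj hx1
      rwa [show P.map Q.cj = P from hbar] at this
    have h5 : (p : ℤ) ∣ 2 * x + Q.t := by
      apply h2
      have h6 := P.add_mem hx1 h4
      rw [Q.cj_form] at h6
      have h7 : (x : 𝓞 K) + ((1 : ℤ) : 𝓞 K) * Q.ω +
          (((x + 1 * Q.t : ℤ) : 𝓞 K) + ((-1 : ℤ) : 𝓞 K) * Q.ω) = ((2 * x + Q.t : ℤ) : 𝓞 K) := by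
        push_cast
        ring
      rwa [h7] at h6
    have h6 : Q.D = (2 * x + Q.t) * (2 * x + Q.t) - 4 * (x ^ 2 + Q.t * x * 1 - Q.k * 1 ^ 2) := by
      rw [hk]
      linear_combination -ht
    rw [h6]
    exact dvd_sub (dvd_mul_of_dvd_left h5 _) (dvd_mul_of_dvd_right h3 _)
  · have h6 : (2 * x + Q.t) ^ 2 - Q.D = 4 * (x ^ 2 + Q.t * x * 1 - Q.k * 1 ^ 2) := by
      rw [hk]
      linear_combination ht
    rw [h6]
    exact mul_dvd_mul_left 4 h3

end Pool.Agent.helper26.T5
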