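import Pool.Agent.helper94.T5.SpecV

/-! Row t5:VAF (MP_16912e_nt) -/

set_option autoImplicit false

namespace Pool.Agent.T5V

open MeasureTheory Set
open scoped ENNReal

theorem VAF_one (a b : ℝ) (ha : a ≠ 0) (H : ℝ → ℝ≥0∞) (hH : Measurable H) :
    ∫⁻ g, H g = ENNReal.ofReal |a| * ∫⁻ l, H (a * l + b) := by
  have hm : Measurable fun y : ℝ => H (y + b) := hH.comp (measurable_id.add_const b)
  have h1 : ∫⁻ l, H (a * l + b) = ENNReal.ofReal |a⁻¹| * ∫⁻ g, H g := by
    have h2 : ∫⁻ l, H (a * l + b) = ∫⁻ y, H (y + b) ∂(Measure.map (a * ·) volume) := by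
      rw [lintegral_map hm (measurable_const_mul a)]
    rw [h2, Real.map_volume_mul_left ha, lintegral_smul_measure, smul_eq_mul,
      lintegral_add_right_eq_self H b]
  rw [h1, ← mul_assoc, ← ENNReal.ofReal_mul (abs_nonneg a), ← abs_mul, mul_inv_cancel₀ ha, abs_one,
    ENNReal.ofReal_one, one_mul]

theorem VAF : VAF_stmt := by
  refine ⟨VAF_one, ?_⟩
  intro a ha H hH
  rw [← lintegral_indicator measurableSet_Ioi, ← lintegral_indicator measurableSet_Ioi,
    VAF_one a 0 ha.ne' _ (hH.indicator measurableSet_Ioi), abs_of_pos ha]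
  congr 1
  refine lintegral_congr fun l => ?_
  rw [add_zero]
  by_cases hl : 0 < l
  · rw [indicator_of_mem (show a * l ∈ Ioi (0 : ℝ) from mul_pos ha hl),
      indicator_of_mem (show l ∈ Ioi (0 : ℝ) from hl)]
  · rw [indicator_of_notMem (show l ∉ Ioi (0 : ℝ) from hl), indicator_of_notMem]
    intro h
    exact hl ((mul_pos_iff_of_pos_left ha).1 h)

end Pool.Agent.T5V
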