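import Pool.Agent.helper94.T5.SpecP

/-! Row t5:PCR (MP_16912e_nt) -/

set_option autoImplicit false

namespace Pool.Agent.T5P

open Finset

theorem PCR : PCR_stmt := by
  intro a b ha hb hco G
  rw [← Fintype.sum_prod_type']
  refine Finset.sum_nbij (fun r : ℕ => ((r : ZMod a), (r : ZMod b))) ?_ ?_ ?_ ?_
  · intro r _
    exact mem_univ _
  · intro x hx y hy hxy
    rw [mem_coe, mem_range] at hx hy
    simp only [Prod.mk.injEq, ZMod.natCast_eq_natCast_iff] at hxy
    have h : x ≡ y [MOD a * b] := (Nat.modEq_and_modEq_iff_modEq_mul hco).1 hxy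
    have h2 : x % (a * b) = y % (a * b) := h
    rwa [Nat.mod_eq_of_lt hx, Nat.mod_eq_of_lt hy] at h2
  · rintro ⟨x, y⟩ _
    obtain ⟨k, hk1, hk2⟩ := Nat.chineseRemainder hco x.val y.val
    refine ⟨k % (a * b), ?_, ?_⟩
    · rw [mem_coe, mem_range]
      exact Nat.mod_lt _ (Nat.mul_pos (NeZero.pos a) (NeZero.pos b))
    · have e1 : ((k % (a * b) : ℕ) : ZMod a) = x := by
        rw [← ZMod.natCast_zmod_val x, ZMod.natCast_eq_natCast_iff, Nat.ModEq, Nat.mod_mul_right_mod]
        exact hk1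
      have e2 : ((k % (a * b) : ℕ) : ZMod b) = y := by
        rw [← ZMod.natCast_zmod_val y, ZMod.natCast_eq_natCast_iff, Nat.ModEq, Nat.mod_mul_left_mod]
        exact hk2
      exact Prod.ext e1 e2
  · intro r _
    rfl

end Pool.Agent.T5P
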