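import Pool.Agent.helper94.T5.SpecP

/-! Row t5:PIN (MP_16912e_nt) -/

set_option autoImplicit false

namespace Pool.Agent.T5P

open Finset

theorem PIN_bounds (p : ℕ) (hp : p.Prime) (n k m g R : ZMod (p ^ 2)) :
    0 ≤ Fp p n k m g R ∧ Fp p n k m g R ≤ ((p : ℝ) / (p - 1)) ^ 2 := by
  have hp2 : (2 : ℝ) ≤ p := by exact_mod_cast hp.two_le
  have h1 : (1 : ℝ) ≤ (p : ℝ) / (p - 1) := by
    rw [le_div_iff₀ (by linarith)]
    linarith
  have h2 : (p : ℝ) / (p - 1) ≤ ((p : ℝ) / (p - 1)) ^ 2 := by nlinarith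
  unfold Fp
  split_ifs
  · exact ⟨by linarith, h2⟩
  · exact ⟨le_refl _, by positivity⟩
  · exact ⟨le_refl _, by positivity⟩
  · exact ⟨by positivity, le_refl _⟩
  · exact ⟨by linarith, h2⟩

theorem PIN_cast (p : ℕ) (x y : ℤ) (h : (p : ℤ) ^ 2 ∣ x - y) :
    (x : ZMod (p ^ 2)) = (y : ZMod (p ^ 2)) := by
  rw [← sub_eq_zero, ← Int.cast_sub, ZMod.intCast_zmod_eq_zero_iff_dvd]
  push_cast
  exact h

theorem PIN_dv (p : ℕ) (n : ℤ) (h : (p : ℤ) ∣ n) : dv p (n : ZMod (p ^ 2)) := by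
  obtain ⟨t, rfl⟩ := h
  unfold dv
  have h1 : ((p : ZMod (p ^ 2))) * ((((p : ℤ) * t : ℤ)) : ZMod (p ^ 2)) =
      (((p : ℤ) ^ 2 * t : ℤ) : ZMod (p ^ 2)) := by
    push_cast
    ring
  rw [h1, ZMod.intCast_zmod_eq_zero_iff_dvd]
  push_cast
  exact Dvd.intro t rfl

theorem PIN_indep (p : ℕ) (n k m g R R' : ZMod (p ^ 2)) (h : dv p n) :
    Fp p n k m g R = Fp p n k m g R' := by
  unfold Fp
  rw [if_pos h, if_pos h]

theorem PIN_dvd_ee (S : Finset ℕ) (p : ℕ) (hp : p ∈ S) : (p : ℤ) ^ 2 ∣ (ee S : ℤ) := by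
  have h : p ^ 2 ∣ ee S := by
    unfold ee
    exact Finset.dvd_prod_of_mem _ hp
  exact_mod_cast h

theorem PIN : PIN_stmt := by
  intro S hS
  refine ⟨fun n k m g R => ⟨?_, ?_⟩, ?_⟩
  · unfold FF
    exact Finset.prod_nonneg fun p hp => (PIN_bounds p (hS p hp) _ _ _ _ _).1
  · unfold FF
    exact Finset.prod_le_prod (fun p hp => (PIN_bounds p (hS p hp) _ _ _ _ _).1)
      fun p hp => (PIN_bounds p (hS p hp) _ _ _ _ _).2
  · intro n k m g R n' k' m' g' R' e₁ hn hk hm hg he hR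
    unfold FF
    refine Finset.prod_congr rfl fun p hp => ?_
    have hd := PIN_dvd_ee S p hp
    have e1 := PIN_cast p n n' (hd.trans hn)
    have e2 := PIN_cast p k k' (hd.trans hk)
    have e3 := PIN_cast p m m' (hd.trans hm)
    have e4 := PIN_cast p g g' (hd.trans hg)
    rw [← e1, ← e2, ← e3, ← e4]
    by_cases h : (p : ℤ) ∣ n
    · exact PIN_indep p _ _ _ _ _ _ (PIN_dv p n h)
    · rw [PIN_cast p R R' ((he p hp h).trans hR)]

end Pool.Agent.T5P
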